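import Pool.Agent.helper74.NL.Spec

/-!
# MP_70a088_an: MAXP, maximum principle for the Cauchy transform
-/

set_option autoImplicit false

open Complex Metric Set Filter Topology MeasureTheory MPS Pool.Agent.helper98.ILF

noncomputable section

namespace NLF

/-- MAXP. -/
theorem MAXP : MAXP_stmt := by
  intro a J ha hJ hlim hd h0 b
  by_contra hb
  have hpos : 0 < ‖a b‖ := norm_pos_iff.mpr hb
  have hn : Tendsto (fun z => ‖a z‖) (Bornology.cobounded ℂ) (𝓝 0) := by
    simpa using hlim.norm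
  have hev : ∀ᶠ z in cocompact ℂ, ‖a z‖ ≤ ‖a b‖ := by
    rw [← Metric.cobounded_eq_cocompact]
    filter_upwards [hn.eventually (gt_mem_nhds hpos)] with z hz
    exact hz.le
  obtain ⟨x, hx⟩ := ha.norm.exists_forall_ge' b hev
  have hM : 0 < ‖a x‖ := hpos.trans_le (hx b)
  have hclosed : IsClosed {y : ℂ | ‖a y‖ = ‖a x‖} := isClosed_eq ha.norm continuous_const
  have hopen : IsOpen {y : ℂ | ‖a y‖ = ‖a x‖} := by
    rw [isOpen_iff_mem_nhds]
    intro y hy
    have hy' : ‖a y‖ = ‖a x‖ := hy
    have hyJ : y ∈ Jᶜ := by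
      intro hyJ
      rw [h0 y hyJ, norm_zero] at hy'
      exact hM.ne hy'
    have hdy : ∀ᶠ z in 𝓝 y, DifferentiableAt ℂ a z := by
      filter_upwards [hJ.isOpen_compl.mem_nhds hyJ] with z hz
      exact hd.differentiableAt (hJ.isOpen_compl.mem_nhds hz)
    have hmax : IsLocalMax (norm ∘ a) y := by
      refine Filter.Eventually.of_forall fun z => ?_
      simp only [Function.comp_apply]
      rw [hy']
      exact hx z
    filter_upwards [Complex.norm_eventually_eq_of_isLocalMax hdy hmax] with z hz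
    show ‖a z‖ = ‖a x‖
    rw [hz, hy']
  have huniv : {y : ℂ | ‖a y‖ = ‖a x‖} = univ := IsClopen.eq_univ ⟨hclosed, hopen⟩ ⟨x, rfl⟩
  have hconst : (fun z => ‖a z‖) = fun _ => ‖a x‖ := by
    funext z
    have : z ∈ {y : ℂ | ‖a y‖ = ‖a x‖} := by rw [huniv]; exact mem_univ z
    exact this
  rw [hconst] at hn
  have := tendsto_nhds_unique hn tendsto_const_nhds
  exact hM.ne this

end NLF
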